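import Pool.Agent.helper99.WN.SpecA
import Pool.Agent.helper99.WN.Basic
import Pool.Agent.helper99.WN.Basic2

set_option autoImplicit false

/-!
Row wn:CF of MP_5c1f29_al, by helper9.
-/

open Classical

namespace Pool.Agent.WN

theorem CF_append {V : Type} {k : ℕ} {R : V → Lt k → V → Prop} {l l' : List (Lt k)}
    {v v1 v2 : V} (h : Rd R v l v1) (h' : Rd R v1 l' v2) : Rd R v (l ++ l') v2 := by
  induction l generalizing v with
  | nil =>
    have e : v = v1 := h
    subst e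
    exact h'
  | cons a l ih =>
    obtain ⟨u, h1, h2⟩ := h
    exact ⟨u, h1, ih h2⟩

theorem CF_det {V : Type} {k : ℕ} {R : V → Lt k → V → Prop} (hR : Det R) {l : List (Lt k)}
    {v v1 v2 : V} (h : Rd R v l v1) (h' : Rd R v l v2) : v1 = v2 := by
  induction l generalizing v with
  | nil =>
    have e : v = v1 := h
    have e' : v = v2 := h'
    rw [← e, ← e']
  | cons a l ih =>
    obtain ⟨u, h1, h2⟩ := h
    obtain ⟨u', h1', h2'⟩ := h'
    have e := hR _ _ _ _ h1 h1'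
    subst e
    exact ih h2 h2'

theorem CF (hRR : RR_stmt) (hCI : CI_stmt) (hKE : KE_stmt) : CF_stmt := by
  intro V k E W N n v0 hyp hg v g hvg
  obtain ⟨h, hh, hκ⟩ := hg g
  obtain ⟨L, hL, hLr⟩ := hKE k W N n (g⁻¹ * h) hyp.wd hκ
  obtain ⟨V', R', ι, hyp', hinj, hmap, hread⟩ := hCI k W N n L.length V (Rl E) hyp
  have h1 : Rd (Rl E) v0 g.toWord v := hRR.2 V k E hyp.det v0 v g hvg
  have h2 : Rd (Rl E) v0 h.toWord v0 := hRR.2 V k E hyp.det v0 v0 h hh
  have h1' : Rd R' (ι v0) g.toWord (ι v) := rd_map ι hmap h1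
  have h2' : Rd R' (ι v0) h.toWord (ι v0) := rd_map ι hmap h2
  obtain ⟨z', hz'⟩ := hread v L le_rfl
  have hz : z' = ι v := hLr V' R' hyp' (ι v) z' hz'
  rw [hz] at hz'
  have h3 : Rd R' (ι v0) (g.toWord ++ L) (ι v) := CF_append h1' hz'
  have h4 : FreeGroup.mk (g.toWord ++ L) = h := by
    rw [← FreeGroup.mul_mk, FreeGroup.mk_toWord, hL]
    group
  have h5 := hRR.1 V' k R' hyp'.det hyp'.sym (g.toWord ++ L) (ι v0) (ι v) h3
  rw [h4] at h5
  exact hinj (CF_det hyp'.det h5 h2')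

end Pool.Agent.WN
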